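import Mathlib

/-!
# Powers of `9 u² / (9 u² - 4)` (for project MX of helper576)
-/

namespace Pool.Agent.N505.MX

/-- The fraction in lowest terms. -/
lemma red {u : ℕ} (hu : 1 ≤ u) : ∃ al be : ℕ, Nat.Coprime al be ∧ 5 ≤ be ∧
    ((al = be + 4 ∧ al = 9 * u ^ 2) ∨ (al = be + 1 ∧ 4 * al = 9 * u ^ 2)) ∧
    (9 * (u:ℝ)^2) / (9 * (u:ℝ)^2 - 4) = (al : ℝ) / be := by
  rcases Nat.even_or_odd' u with ⟨k, rfl | rfl⟩
  · -- `u = 2 k`
    have hk : 1 ≤ k := by omega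
    have h1 : 1 ≤ k ^ 2 := Nat.one_le_pow _ _ hk
    refine ⟨9 * k ^ 2, 9 * k ^ 2 - 1, ?_, by omega, Or.inr ⟨by omega, by ring⟩, ?_⟩
    · have h2 : 9 * k ^ 2 = (9 * k ^ 2 - 1) + 1 := by omega
      rw [h2]
      simp
    · have h3 : ((9 * k ^ 2 - 1 : ℕ) : ℝ) = 9 * (k : ℝ) ^ 2 - 1 := by
        rw [Nat.cast_sub (by omega)]
        push_cast
        ring
      have h4 : (1 : ℝ) ≤ (k : ℝ) ^ 2 := by exact_mod_cast h1
      rw [h3]
      push_cast
      rw [div_eq_div_iff (by nlinarith) (by nlinarith)]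
      ring
  · -- `u = 2 k + 1`
    have h1 : 1 ≤ (2 * k + 1) ^ 2 := Nat.one_le_pow _ _ (by omega)
    have h2 : 9 * (2 * k + 1) ^ 2 = (9 * (2 * k + 1) ^ 2 - 4) + 4 := by omega
    refine ⟨9 * (2 * k + 1) ^ 2, 9 * (2 * k + 1) ^ 2 - 4, ?_, by omega, Or.inl ⟨h2, rfl⟩, ?_⟩
    · have h3 : Nat.Coprime (9 * (2 * k + 1) ^ 2) 4 := by
        have h4 : Nat.Coprime (9 * (2 * k + 1) ^ 2) 2 := by
          rw [Nat.coprime_two_right]
          have : Odd (2 * k + 1) := ⟨k, rfl⟩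
          exact (by decide : Odd 9).mul (this.pow)
        have : (4 : ℕ) = 2 ^ 2 := by norm_num
        rw [this]
        exact h4.pow_right 2
      have h5 : Nat.Coprime ((9 * (2 * k + 1) ^ 2 - 4) + 4) (9 * (2 * k + 1) ^ 2 - 4) := by
        rw [Nat.coprime_self_add_left]
        have h6 : Nat.Coprime ((9 * (2 * k + 1) ^ 2 - 4) + 4) 4 := by rw [← h2]; exact h3
        rw [Nat.coprime_add_self_left] at h6
        exact h6.symm
      rw [← h2] at h5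
      exact h5
    · have h3 : ((9 * (2 * k + 1) ^ 2 - 4 : ℕ) : ℝ) = 9 * ((2 * k + 1 : ℕ) : ℝ) ^ 2 - 4 := by
        rw [Nat.cast_sub (by omega)]
        push_cast
        ring
      rw [h3]
      push_cast
      rfl

/-- `(F + 1)^n - F^n` is large for `n ≥ 2`. -/
lemma pow_gap {E F n : ℕ} (hn : 2 ≤ n) (hF : 2 ≤ F) (h1 : F ^ n < E ^ n) : F ^ n + 5 ≤ E ^ n := by
  have h2 : F + 1 ≤ E := by
    by_contra hc
    exact absurd h1 (not_lt.2 (Nat.pow_le_pow_left (by omega) n))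
  have h3 : (F + 1) ^ n ≤ E ^ n := Nat.pow_le_pow_left h2 n
  obtain ⟨m, rfl⟩ : ∃ m, n = m + 2 := ⟨n - 2, by omega⟩
  have h4 : F ^ m ≤ (F + 1) ^ m := Nat.pow_le_pow_left (by omega) m
  have h5 : 1 ≤ F ^ m := Nat.one_le_pow _ _ (by omega)
  have h6 : (F + 1) ^ (m + 2) = (F + 1) ^ m * (F ^ 2 + 2 * F + 1) := by ring
  have h7 : F ^ (m + 2) = F ^ m * F ^ 2 := by ring
  have h8 : F ^ m * (F ^ 2 + 2 * F + 1) ≤ (F + 1) ^ m * (F ^ 2 + 2 * F + 1) :=
    Nat.mul_le_mul_right _ h4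
  have h9 : F ^ m * (F ^ 2 + 2 * F + 1) = F ^ m * F ^ 2 + F ^ m * (2 * F + 1) := by ring
  have h10 : 5 ≤ F ^ m * (2 * F + 1) := by nlinarith
  omega

/-- Equal powers of two pairs of numbers with small differences. -/
lemma exp_eq {al be al' be' b d : ℕ} (hb : 1 ≤ b) (hd : 1 ≤ d) (hbe : 2 ≤ be) (h1 : be < al)
    (h2 : al ≤ be + 4) (ha : al ^ b = al' ^ d) (hbb : be ^ b = be' ^ d) : d = Nat.gcd b d := by
  obtain ⟨E, hE, -⟩ := Nat.exists_eq_pow_of_pow_eq_pow (Or.inl (by omega : b ≠ 0)) ha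
  obtain ⟨F, hF, -⟩ := Nat.exists_eq_pow_of_pow_eq_pow (Or.inl (by omega : b ≠ 0)) hbb
  have hg : 0 < Nat.gcd b d := Nat.gcd_pos_of_pos_left _ (by omega)
  have h3 : Nat.gcd b d * (d / Nat.gcd b d) = d := Nat.mul_div_cancel' (Nat.gcd_dvd_right b d)
  by_cases h4 : 2 ≤ d / Nat.gcd b d
  · exfalso
    have hF2 : 2 ≤ F := by
      by_contra hc
      have h5 : F ^ (d / Nat.gcd b d) ≤ 1 ^ (d / Nat.gcd b d) := Nat.pow_le_pow_left (by omega) _
      rw [one_pow, ← hF] at h5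
      omega
    have h5 := pow_gap h4 hF2 (E := E) (by rw [← hE, ← hF]; exact h1)
    rw [← hE, ← hF] at h5
    omega
  · have h5 : d / Nat.gcd b d = 1 := by
      have h6 : d / Nat.gcd b d ≠ 0 := by
        intro h0
        rw [h0, mul_zero] at h3
        omega
      exact le_antisymm (Nat.lt_succ_iff.1 (not_le.1 h4)) (Nat.one_le_iff_ne_zero.2 h6)
    rw [h5, mul_one] at h3
    exact h3.symm

/-- Fractions in lowest terms. -/
lemma eq_of_cross {A B C D : ℕ} (h1 : Nat.Coprime A B) (h2 : Nat.Coprime C D)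
    (hA : 0 < A) (h : A * D = C * B) : A = C ∧ B = D := by
  have h3 : A ∣ C := h1.dvd_of_dvd_mul_right (Dvd.intro D h)
  have h4 : C ∣ A := h2.dvd_of_dvd_mul_right (Dvd.intro B h.symm)
  have h5 : A = C := Nat.dvd_antisymm h3 h4
  subst h5
  exact ⟨rfl, (Nat.eq_of_mul_eq_mul_left hA h).symm⟩

theorem ratpow {u v b d : ℕ} (hu : 1 ≤ u) (hv : 1 ≤ v) (hb : 1 ≤ b) (hd : 1 ≤ d)
    (h : ((9 * (u:ℝ)^2) / (9 * (u:ℝ)^2 - 4))^b = ((9 * (v:ℝ)^2) / (9 * (v:ℝ)^2 - 4))^d) :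
    u = v ∧ b = d := by
  obtain ⟨al, be, hc, hbe, hcase, he⟩ := red hu
  obtain ⟨al', be', hc', hbe', hcase', he'⟩ := red hv
  rw [he, he', div_pow, div_pow] at h
  have hp : (0 : ℝ) < (be : ℝ) ^ b := by
    have : (0 : ℝ) < be := by exact_mod_cast (by omega : 0 < be)
    positivity
  have hp' : (0 : ℝ) < (be' : ℝ) ^ d := by
    have : (0 : ℝ) < be' := by exact_mod_cast (by omega : 0 < be')
    positivity
  rw [div_eq_div_iff hp.ne' hp'.ne'] at h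
  have h1 : al ^ b * be' ^ d = al' ^ d * be ^ b := by exact_mod_cast h
  have hal : 0 < al := by rcases hcase with h | h <;> omega
  obtain ⟨ha, hbb⟩ := eq_of_cross (hc.pow b b) (hc'.pow d d) (pow_pos hal b) h1
  have h2 : d = Nat.gcd b d := exp_eq hb hd (by omega) (by omega) (by omega) ha hbb
  have h3 : b = Nat.gcd d b := exp_eq hd hb (by omega) (by omega) (by omega) ha.symm hbb.symm
  have hbd : b = d := by rw [h3, Nat.gcd_comm, ← h2]
  subst hbd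
  have ha1 : al = al' := Nat.pow_left_injective (by omega) ha
  have hb1 : be = be' := Nat.pow_left_injective (by omega) hbb
  refine ⟨?_, rfl⟩
  have h4 : u ^ 2 = v ^ 2 := by
    rcases hcase with ⟨h5, h6⟩ | ⟨h5, h6⟩ <;> rcases hcase' with ⟨h7, h8⟩ | ⟨h7, h8⟩ <;> omega
  exact Nat.pow_left_injective (two_ne_zero) h4

end Pool.Agent.N505.MX
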